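import Mathlib

/-!
# Degree tuples whose product is divisible by high powers of all small primes

For all but a tiny proportion of the tuples `(d_1, …, d_r)` in every box of side `N ≥ r` the product
`d_1 ⋯ d_r` is divisible by `p ^ ⌊(1 - ε / 2) r / p⌋` for every prime `p ≤ r ^ (1 - ε / 2)`.
-/

set_option autoImplicit false

namespace Pool.Agent.N773.AD

open Finset Filter Topology

theorem card_dvd (p A N : ℕ) (hp : 0 < p) :
    N / p ≤ ((Ioc A (A + N)).filter (fun a => p ∣ a)).card := by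
  have h1 : ((range (N / p)).image (fun j => (A / p + 1 + j) * p)) ⊆
      (Ioc A (A + N)).filter (fun a => p ∣ a) := by
    intro a ha
    obtain ⟨j, hj, rfl⟩ := Finset.mem_image.1 ha
    rw [Finset.mem_range] at hj
    rw [Finset.mem_filter, Finset.mem_Ioc]
    refine ⟨⟨?_, ?_⟩, Dvd.intro_left _ rfl⟩
    · have h2 := Nat.lt_div_mul_add (a := A) hp
      have h3 : (A / p + 1 + j) * p = A / p * p + p + j * p := by ring
      rw [h3]
      omega
    · have h2 := Nat.div_mul_le_self A p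
      have h3 : (A / p + 1 + j) * p = A / p * p + (j + 1) * p := by ring
      have h4 : (j + 1) * p ≤ (N / p) * p := Nat.mul_le_mul_right p hj
      have h5 := Nat.div_mul_le_self N p
      rw [h3]
      omega
  have h2 := Finset.card_le_card h1
  rw [Finset.card_image_of_injective, Finset.card_range] at h2
  · exact h2
  · intro a b hab
    have h3 : (A / p + 1 + a) * p = (A / p + 1 + b) * p := hab
    have h4 := Nat.eq_of_mul_eq_mul_right hp h3
    omega

/-- the box of the degree tuples -/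
def box (r N : ℕ) (A : Fin r → ℕ) : Finset (Fin r → ℕ) :=
  Fintype.piFinset fun i => Ioc (A i) (A i + N)

/-- the number of the coordinates divisible by `p` -/
def cnt {r : ℕ} (p : ℕ) (d : Fin r → ℕ) : ℕ := (univ.filter (fun i => p ∣ d i)).card

theorem sum_g (p A N : ℕ) (δ : ℝ) (hp : 0 < p) (hδ : 0 < δ) (hpN : (p : ℝ) ≤ δ * N) :
    ∑ a ∈ Ioc A (A + N), (if p ∣ a then Real.exp (-δ) else 1) ≤
      N * Real.exp (-((1 - Real.exp (-δ)) * ((1 - δ) / p))) := by
  have hp0 : (0 : ℝ) < p := by exact_mod_cast hp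
  obtain ⟨M, hM⟩ : ∃ M, M = ((Ioc A (A + N)).filter (fun a => p ∣ a)).card := ⟨_, rfl⟩
  have h1 : ∑ a ∈ Ioc A (A + N), (if p ∣ a then Real.exp (-δ) else 1) =
      N - M * (1 - Real.exp (-δ)) := by
    have h2 : ∀ a, (if p ∣ a then Real.exp (-δ) else 1) =
        1 - (if p ∣ a then (1 - Real.exp (-δ)) else 0) := by
      intro a
      split_ifs <;> ring
    rw [Finset.sum_congr rfl fun a _ => h2 a, Finset.sum_sub_distrib, ← Finset.sum_filter,
      Finset.sum_const, Finset.sum_const, ← hM, nsmul_eq_mul, nsmul_eq_mul]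
    simp
  have hM1 : ((N / p : ℕ) : ℝ) ≤ M := by
    rw [hM]
    exact_mod_cast card_dvd p A N hp
  have hM2 : (1 - δ) * N / p ≤ M := by
    refine le_trans ?_ hM1
    have h3 : (N : ℝ) ≤ p * (((N / p : ℕ) : ℝ) + 1) := by
      have := (Nat.lt_mul_div_succ N hp).le
      exact_mod_cast this
    rw [div_le_iff₀ hp0]
    nlinarith
  have he : 0 ≤ 1 - Real.exp (-δ) := by
    have : Real.exp (-δ) ≤ 1 := Real.exp_le_one_iff.2 (by linarith)
    linarith
  rw [h1]
  have h4 : (N : ℝ) - M * (1 - Real.exp (-δ)) ≤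
      N * (1 - (1 - Real.exp (-δ)) * ((1 - δ) / p)) := by
    have h5 := mul_le_mul_of_nonneg_right hM2 he
    have h6 : (N : ℝ) * (1 - (1 - Real.exp (-δ)) * ((1 - δ) / p)) =
        N - (1 - δ) * N / p * (1 - Real.exp (-δ)) := by
      field_simp
    rw [h6]
    linarith
  refine h4.trans (mul_le_mul_of_nonneg_left ?_ (by positivity))
  have := Real.add_one_le_exp (-((1 - Real.exp (-δ)) * ((1 - δ) / p)))
  linarith

theorem chernoff {r p N : ℕ} {δ : ℝ} (hp : 0 < p) (hδ : 0 < δ) (hδ1 : δ ≤ 1)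
    (hpN : (p : ℝ) ≤ δ * N) (A : Fin r → ℕ) :
    (((box r N A).filter (fun d => (cnt p d : ℝ) ≤ (1 - 2 * δ) * ((1 - δ) / p) * r)).card : ℝ) ≤
      (N : ℝ) ^ r * Real.exp (-(δ ^ 2 * ((1 - δ) / p) * r)) := by
  obtain ⟨s, hs⟩ : ∃ s, s = (1 - 2 * δ) * ((1 - δ) / p) * r := ⟨_, rfl⟩
  rw [← hs]
  have hp0 : (0 : ℝ) < p := by exact_mod_cast hp
  have hq : 0 ≤ (1 - δ) / p := div_nonneg (by linarith) hp0.le
  have h1 : (((box r N A).filter (fun d => (cnt p d : ℝ) ≤ s)).card : ℝ) ≤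
      ∑ d ∈ box r N A, Real.exp (δ * (s - cnt p d)) := by
    rw [Finset.card_eq_sum_ones, Nat.cast_sum]
    refine le_trans (Finset.sum_le_sum (g := fun d => Real.exp (δ * (s - cnt p d))) ?_)
      (Finset.sum_le_sum_of_subset_of_nonneg (Finset.filter_subset _ _)
        fun _ _ _ => (Real.exp_pos _).le)
    intro d hd
    have h2 := (Finset.mem_filter.1 hd).2
    rw [Nat.cast_one]
    exact Real.one_le_exp (mul_nonneg hδ.le (by linarith))
  have h2 : ∀ d : Fin r → ℕ, Real.exp (δ * (s - cnt p d)) =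
      Real.exp (δ * s) * ∏ i, (if p ∣ d i then Real.exp (-δ) else 1) := by
    intro d
    rw [Finset.prod_ite, Finset.prod_const, Finset.prod_const_one, mul_one, ← Real.exp_nat_mul,
      ← Real.exp_add]
    unfold cnt
    congr 1
    ring
  have h3 : ∑ d ∈ box r N A, Real.exp (δ * (s - cnt p d)) =
      Real.exp (δ * s) * ∏ i : Fin r, ∑ a ∈ Ioc (A i) (A i + N),
        (if p ∣ a then Real.exp (-δ) else 1) := by
    rw [Finset.prod_univ_sum, Finset.mul_sum]
    exact Finset.sum_congr rfl fun d _ => h2 d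
  have h4 : ∏ i : Fin r, ∑ a ∈ Ioc (A i) (A i + N), (if p ∣ a then Real.exp (-δ) else 1) ≤
      (N * Real.exp (-((1 - Real.exp (-δ)) * ((1 - δ) / p)))) ^ r := by
    have h5 : (N * Real.exp (-((1 - Real.exp (-δ)) * ((1 - δ) / p)))) ^ r =
        ∏ _i : Fin r, (N * Real.exp (-((1 - Real.exp (-δ)) * ((1 - δ) / p)))) := by
      rw [Finset.prod_const, Finset.card_univ, Fintype.card_fin]
    rw [h5]
    refine Finset.prod_le_prod (fun i _ => Finset.sum_nonneg fun a _ => ?_) fun i _ =>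
      sum_g p (A i) N δ hp hδ hpN
    split_ifs
    · exact (Real.exp_pos _).le
    · exact zero_le_one
  refine h1.trans ?_
  rw [h3]
  refine (mul_le_mul_of_nonneg_left h4 (Real.exp_pos _).le).trans ?_
  rw [mul_pow, ← Real.exp_nat_mul]
  have h6 : Real.exp (δ * s) * ((N : ℝ) ^ r * Real.exp (r * -((1 - Real.exp (-δ)) * ((1 - δ) / p)))) =
      (N : ℝ) ^ r * Real.exp (δ * s + r * -((1 - Real.exp (-δ)) * ((1 - δ) / p))) := by
    rw [Real.exp_add]
    ring
  rw [h6]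
  refine mul_le_mul_of_nonneg_left (Real.exp_le_exp.2 ?_) (by positivity)
  have h7 : Real.exp (-δ) ≤ 1 - δ + δ ^ 2 := by
    have := Real.abs_exp_sub_one_sub_id_le (x := -δ) (by rw [abs_neg, abs_of_pos hδ]; exact hδ1)
    have h8 := (abs_le.1 this).2
    nlinarith
  rw [hs]
  have h9 : 0 ≤ (1 - δ) / p * (r : ℝ) := by positivity
  have h10 : δ * ((1 - 2 * δ) * ((1 - δ) / p) * r) + r * -((1 - Real.exp (-δ)) * ((1 - δ) / p)) =
      ((1 - δ) / p * r) * (δ * (1 - 2 * δ) - (1 - Real.exp (-δ))) := by ring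
  have h11 : -(δ ^ 2 * ((1 - δ) / p) * r) = ((1 - δ) / p * r) * (-δ ^ 2) := by ring
  rw [h10, h11]
  exact mul_le_mul_of_nonneg_left (by nlinarith) h9

theorem pow_cnt_dvd {r : ℕ} (p : ℕ) (d : Fin r → ℕ) : p ^ cnt p d ∣ ∏ i, d i := by
  have h1 : p ^ cnt p d = ∏ _i ∈ univ.filter (fun i => p ∣ d i), p := by
    rw [Finset.prod_const]
    rfl
  rw [h1]
  refine dvd_trans (Finset.prod_dvd_prod_of_dvd _ _ fun i hi => (Finset.mem_filter.1 hi).2) ?_
  exact Finset.prod_dvd_prod_of_subset _ _ _ (Finset.filter_subset _ _)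

/-- the range of the primes -/
noncomputable def yy (ε : ℝ) (r : ℕ) : ℕ := ⌊(r : ℝ) ^ (1 - ε / 2)⌋₊

/-- the exponents -/
noncomputable def SS (ε : ℝ) (r p : ℕ) : ℕ := ⌊(1 - ε / 2) * r / p⌋₊

theorem almost_all (ε : ℝ) (hε : 0 < ε) (hε1 : ε < 1) : ∃ r₂ : ℕ, ∀ r : ℕ, r₂ ≤ r → ∀ N : ℕ, r ≤ N →
    ∀ A : Fin r → ℕ, ∃ Ex : Finset (Fin r → ℕ),
      (Ex.card : ℝ) ≤ Real.exp (-(r : ℝ) ^ (ε / 4)) * (N : ℝ) ^ r ∧
      ∀ d : Fin r → ℕ, (∀ i, A i < d i ∧ d i ≤ A i + N) → d ∉ Ex →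
        ∀ p : ℕ, p.Prime → p ≤ yy ε r → p ^ SS ε r p ∣ ∏ i, d i := by
  classical
  obtain ⟨δ, hδ⟩ : ∃ δ, δ = ε / 8 := ⟨_, rfl⟩
  have hδ0 : 0 < δ := by rw [hδ]; positivity
  have hδ1 : δ ≤ 1 / 8 := by rw [hδ]; linarith
  have hr : Tendsto (fun r : ℕ => (r : ℝ)) atTop atTop := tendsto_natCast_atTop_atTop
  have ev1 : ∀ᶠ r : ℕ in atTop, (r : ℝ) ^ (1 - ε / 2) ≤ δ * r := by
    have h1 : Tendsto (fun r : ℕ => (r : ℝ) ^ (ε / 2)) atTop atTop :=
      (tendsto_rpow_atTop (by positivity)).comp hr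
    filter_upwards [h1.eventually_ge_atTop (1 / δ), eventually_ge_atTop 1] with r h2 h3
    have hr0 : (0 : ℝ) < r := by exact_mod_cast h3
    rw [Real.rpow_sub hr0, Real.rpow_one, div_le_iff₀ (by positivity)]
    rw [div_le_iff₀ hδ0] at h2
    nlinarith
  have ev2 : ∀ᶠ r : ℕ in atTop,
      Real.log r + (r : ℝ) ^ (ε / 4) ≤ δ ^ 2 * (1 - δ) * (r : ℝ) ^ (ε / 2) := by
    have h1 : (fun x : ℝ => Real.log x) =o[atTop] fun x : ℝ => x ^ (ε / 2) :=
      isLittleO_log_rpow_atTop (by positivity)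
    have hc : 0 < δ ^ 2 * (1 - δ) := by
      have : 0 < 1 - δ := by linarith
      positivity
    have h2 : Tendsto (fun r : ℕ => (r : ℝ) ^ (ε / 4)) atTop atTop :=
      (tendsto_rpow_atTop (by positivity)).comp hr
    have h3 := h1.comp_tendsto hr
    filter_upwards [h3.def (half_pos hc), h2.eventually_ge_atTop (2 / (δ ^ 2 * (1 - δ))),
      eventually_ge_atTop 1] with r h4 h5 h6
    have hr0 : (0 : ℝ) < r := by exact_mod_cast h6
    simp only [Function.comp, Real.norm_eq_abs] at h4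
    rw [abs_of_nonneg (by positivity : (0 : ℝ) ≤ (r : ℝ) ^ (ε / 2))] at h4
    have h7 := (le_abs_self _).trans h4
    have h8 : (r : ℝ) ^ (ε / 2) = (r : ℝ) ^ (ε / 4) * (r : ℝ) ^ (ε / 4) := by
      rw [← Real.rpow_add hr0]
      congr 1
      ring
    rw [div_le_iff₀ hc] at h5
    have h9 : 0 < (r : ℝ) ^ (ε / 4) := by positivity
    rw [h8] at h7 ⊢
    nlinarith
  obtain ⟨r₂, hr₂⟩ := eventually_atTop.1 (ev1.and (ev2.and (eventually_ge_atTop 1)))
  refine ⟨r₂, fun r hr2 N hN A => ?_⟩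
  obtain ⟨e1, e2, e3⟩ := hr₂ r hr2
  have hr0 : (0 : ℝ) < r := by exact_mod_cast e3
  have hrN : (r : ℝ) ≤ N := by exact_mod_cast hN
  refine ⟨((Icc 1 (yy ε r)).filter Nat.Prime).biUnion (fun p => (box r N A).filter
    (fun d => (cnt p d : ℝ) ≤ (1 - 2 * δ) * ((1 - δ) / p) * r)), ?_, ?_⟩
  · have h1 : ∀ p ∈ (Icc 1 (yy ε r)).filter Nat.Prime, (((box r N A).filter
        (fun d => (cnt p d : ℝ) ≤ (1 - 2 * δ) * ((1 - δ) / p) * r)).card : ℝ) ≤
        (N : ℝ) ^ r * Real.exp (-(δ ^ 2 * (1 - δ) * (r : ℝ) ^ (ε / 2))) := by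
      intro p hp
      obtain ⟨h2, h3⟩ := Finset.mem_filter.1 hp
      have hp0 : (0 : ℝ) < p := by exact_mod_cast h3.pos
      have h4 : (p : ℝ) ≤ (r : ℝ) ^ (1 - ε / 2) := by
        have h5 := (Finset.mem_Icc.1 h2).2
        unfold yy at h5
        exact (Nat.le_floor_iff (by positivity)).1 h5
      refine (chernoff h3.pos hδ0 (by linarith) (h4.trans (e1.trans
        (mul_le_mul_of_nonneg_left hrN hδ0.le))) A).trans ?_
      refine mul_le_mul_of_nonneg_left (Real.exp_le_exp.2 (neg_le_neg ?_)) (by positivity)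
      have h6 : (r : ℝ) ^ (ε / 2) ≤ r / p := by
        rw [le_div_iff₀ hp0]
        calc (r : ℝ) ^ (ε / 2) * p ≤ (r : ℝ) ^ (ε / 2) * (r : ℝ) ^ (1 - ε / 2) :=
              mul_le_mul_of_nonneg_left h4 (by positivity)
          _ = r := by
              rw [← Real.rpow_add hr0]
              norm_num
      have h7 : 0 ≤ δ ^ 2 * (1 - δ) := by
        have : 0 ≤ 1 - δ := by linarith
        positivity
      calc δ ^ 2 * (1 - δ) * (r : ℝ) ^ (ε / 2) ≤ δ ^ 2 * (1 - δ) * (r / p) :=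
            mul_le_mul_of_nonneg_left h6 h7
        _ = δ ^ 2 * ((1 - δ) / p) * r := by ring
    have h2 : ((((Icc 1 (yy ε r)).filter Nat.Prime).biUnion (fun p => (box r N A).filter
        (fun d => (cnt p d : ℝ) ≤ (1 - 2 * δ) * ((1 - δ) / p) * r))).card : ℝ) ≤
        ∑ p ∈ (Icc 1 (yy ε r)).filter Nat.Prime, (((box r N A).filter
          (fun d => (cnt p d : ℝ) ≤ (1 - 2 * δ) * ((1 - δ) / p) * r)).card : ℝ) := by
      exact_mod_cast Finset.card_biUnion_le
    refine h2.trans ((Finset.sum_le_sum h1).trans ?_)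
    rw [Finset.sum_const, nsmul_eq_mul]
    have h3 : ((((Icc 1 (yy ε r)).filter Nat.Prime).card : ℕ) : ℝ) ≤ r := by
      have h4 : ((Icc 1 (yy ε r)).filter Nat.Prime).card ≤ yy ε r := by
        refine (Finset.card_filter_le _ _).trans ?_
        rw [Nat.card_Icc]
        omega
      have h5 : ((yy ε r : ℕ) : ℝ) ≤ (r : ℝ) ^ (1 - ε / 2) := Nat.floor_le (by positivity)
      have h6 : (r : ℝ) ^ (1 - ε / 2) ≤ r := e1.trans (by nlinarith)
      have h7 : ((((Icc 1 (yy ε r)).filter Nat.Prime).card : ℕ) : ℝ) ≤ ((yy ε r : ℕ) : ℝ) := by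
        exact_mod_cast h4
      linarith
    have h4 : (r : ℝ) * Real.exp (-(δ ^ 2 * (1 - δ) * (r : ℝ) ^ (ε / 2))) ≤
        Real.exp (-(r : ℝ) ^ (ε / 4)) := by
      have h5 : (r : ℝ) = Real.exp (Real.log r) := (Real.exp_log hr0).symm
      calc (r : ℝ) * Real.exp (-(δ ^ 2 * (1 - δ) * (r : ℝ) ^ (ε / 2)))
          = Real.exp (Real.log r) * Real.exp (-(δ ^ 2 * (1 - δ) * (r : ℝ) ^ (ε / 2))) := by
            rw [← h5]
        _ = Real.exp (Real.log r + -(δ ^ 2 * (1 - δ) * (r : ℝ) ^ (ε / 2))) := by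
            rw [Real.exp_add]
        _ ≤ Real.exp (-(r : ℝ) ^ (ε / 4)) := Real.exp_le_exp.2 (by linarith)
    have h5 : 0 ≤ (N : ℝ) ^ r * Real.exp (-(δ ^ 2 * (1 - δ) * (r : ℝ) ^ (ε / 2))) := by positivity
    calc ((((Icc 1 (yy ε r)).filter Nat.Prime).card : ℕ) : ℝ) *
        ((N : ℝ) ^ r * Real.exp (-(δ ^ 2 * (1 - δ) * (r : ℝ) ^ (ε / 2))))
        ≤ r * ((N : ℝ) ^ r * Real.exp (-(δ ^ 2 * (1 - δ) * (r : ℝ) ^ (ε / 2)))) :=
          mul_le_mul_of_nonneg_right h3 h5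
      _ = (r * Real.exp (-(δ ^ 2 * (1 - δ) * (r : ℝ) ^ (ε / 2)))) * (N : ℝ) ^ r := by ring
      _ ≤ Real.exp (-(r : ℝ) ^ (ε / 4)) * (N : ℝ) ^ r :=
          mul_le_mul_of_nonneg_right h4 (by positivity)
  · intro d hd hdE p hp hpy
    have hp0 : (0 : ℝ) < p := by exact_mod_cast hp.pos
    have h1 : (1 - 2 * δ) * ((1 - δ) / p) * r < (cnt p d : ℝ) := by
      by_contra h2
      apply hdE
      refine Finset.mem_biUnion.2 ⟨p, Finset.mem_filter.2 ⟨Finset.mem_Icc.2 ⟨hp.one_lt.le, hpy⟩, hp⟩,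
        Finset.mem_filter.2 ⟨?_, not_lt.1 h2⟩⟩
      unfold box
      rw [Fintype.mem_piFinset]
      intro i
      exact Finset.mem_Ioc.2 (hd i)
    have h2 : SS ε r p ≤ cnt p d := by
      unfold SS
      refine Nat.floor_le_of_le (le_trans ?_ h1.le)
      rw [div_le_iff₀ hp0]
      have h3 : (1 - 2 * δ) * ((1 - δ) / p) * r * p = (1 - 2 * δ) * (1 - δ) * r := by
        field_simp
      rw [h3]
      refine mul_le_mul_of_nonneg_right ?_ hr0.le
      rw [hδ]
      nlinarith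
    exact (pow_dvd_pow p h2).trans (pow_cnt_dvd p d)

end Pool.Agent.N773.AD
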