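import Mathlib
import Pool.Agent.Helper923.HMertens
import Pool.Agent.N773.AD.Count

/-!
# The common divisor: size and divisibility
-/

set_option autoImplicit false

namespace Pool.Agent.N773.AD

open Finset Filter Topology

/-- the multiplier of the exponent -/
def mm (n p : ℕ) : ℕ := n + (n - 1) / (p - 1)

/-- the loss at the primes `p ≤ n` -/
def cc (n p : ℕ) : ℕ := Nat.log p n * ((n + (n - 1) / (p - 1)) ^ 2 - 1)

/-- the exponents of the common divisor -/
noncomputable def ex (ε : ℝ) (n r p : ℕ) : ℕ := (SS ε r p - cc n p) / mm n p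

/-- the common divisor -/
noncomputable def QQ (ε : ℝ) (n r : ℕ) : ℕ :=
  ∏ p ∈ (Icc 1 (yy ε r)).filter Nat.Prime, p ^ ex ε n r p

theorem QQ_ne (ε : ℝ) (n r : ℕ) : QQ ε n r ≠ 0 := by
  unfold QQ
  refine Finset.prod_ne_zero_iff.2 fun p hp => pow_ne_zero _ ?_
  exact (Finset.mem_filter.1 hp).2.ne_zero

theorem QQ_fact (ε : ℝ) (n r q : ℕ) : (QQ ε n r).factorization q =
    if q ∈ (Icc 1 (yy ε r)).filter Nat.Prime then ex ε n r q else 0 := by
  unfold QQ
  rw [Nat.factorization_prod fun p hp => pow_ne_zero _ (Finset.mem_filter.1 hp).2.ne_zero]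
  rw [Finsupp.finsetSum_apply]
  have h1 : ∀ p ∈ (Icc 1 (yy ε r)).filter Nat.Prime, (p ^ ex ε n r p).factorization q =
      if p = q then ex ε n r q else 0 := by
    intro p hp
    rw [(Finset.mem_filter.1 hp).2.factorization_pow, Finsupp.single_apply]
    split_ifs with h
    · rw [h]
    · rfl
  rw [Finset.sum_congr rfl h1, Finset.sum_ite_eq' _ q]

/-- the divisibility condition of the theorem on curves -/
theorem cond (ε : ℝ) (n r : ℕ) (hn : 1 ≤ n) (D : ℕ)
    (h : ∀ p : ℕ, p.Prime → p ≤ yy ε r → p ^ SS ε r p ∣ D) (p : ℕ) (hp : p.Prime)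
    (hpQ : p ∣ QQ ε n r) :
    p ^ ((n + (n - 1) / (p - 1)) * (QQ ε n r).factorization p +
      Nat.log p n * ((n + (n - 1) / (p - 1)) ^ 2 - 1)) ∣ D := by
  have h1 : 1 ≤ (QQ ε n r).factorization p :=
    (hp.dvd_iff_one_le_factorization (QQ_ne ε n r)).1 hpQ
  rw [QQ_fact] at h1 ⊢
  split_ifs at h1 ⊢ with h2
  · obtain ⟨h3, -⟩ := Finset.mem_filter.1 h2
    refine dvd_trans (pow_dvd_pow p ?_) (h p hp (Finset.mem_Icc.1 h3).2)
    have h4 : mm n p * ((SS ε r p - cc n p) / mm n p) ≤ SS ε r p - cc n p := Nat.mul_div_le _ _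
    have h5 : 0 < mm n p := Nat.lt_of_lt_of_le hn (Nat.le_add_right _ _)
    have h6 : mm n p * 1 ≤ mm n p * ((SS ε r p - cc n p) / mm n p) := Nat.mul_le_mul_left _ h1
    show mm n p * ((SS ε r p - cc n p) / mm n p) + cc n p ≤ SS ε r p
    omega
  · omega

theorem all_q (ε : ℝ) (hε : 0 < ε) (hε1 : ε < 1) (n : ℕ) (hn : 1 ≤ n) : ∃ r₁ : ℕ, ∀ r : ℕ, r₁ ≤ r →
    ∀ q : ℕ, 1 ≤ q → (q : ℝ) ≤ (r : ℝ) ^ (1 - ε) → q ∣ QQ ε n r := by
  have hr : Tendsto (fun r : ℕ => (r : ℝ)) atTop atTop := tendsto_natCast_atTop_atTop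
  have ev : ∀ᶠ r : ℕ in atTop,
      4 * (n : ℝ) * Real.log r + 4 * (n : ℝ) ^ 3 + 1 ≤ 1 / 2 * (r : ℝ) ^ ε := by
    have h1 : (fun x : ℝ => Real.log x) =o[atTop] fun x : ℝ => x ^ ε :=
      isLittleO_log_rpow_atTop hε
    have h2 : Tendsto (fun r : ℕ => (r : ℝ) ^ ε) atTop atTop := (tendsto_rpow_atTop hε).comp hr
    have h3 := h1.comp_tendsto hr
    have hc : (0 : ℝ) < 1 / (16 * n) := by positivity
    filter_upwards [h3.def hc, h2.eventually_ge_atTop (4 * (4 * (n : ℝ) ^ 3 + 1)),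
      eventually_ge_atTop 1] with r h4 h5 h6
    have hr0 : (0 : ℝ) < r := by exact_mod_cast h6
    simp only [Function.comp, Real.norm_eq_abs] at h4
    rw [abs_of_nonneg (by positivity : (0 : ℝ) ≤ (r : ℝ) ^ ε)] at h4
    have h7 := (le_abs_self _).trans h4
    have h8 : 4 * (n : ℝ) * Real.log r ≤ 4 * (n : ℝ) * (1 / (16 * n) * (r : ℝ) ^ ε) :=
      mul_le_mul_of_nonneg_left h7 (by positivity)
    have h9 : 4 * (n : ℝ) * (1 / (16 * n) * (r : ℝ) ^ ε) = 1 / 4 * (r : ℝ) ^ ε := by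
      have : (n : ℝ) ≠ 0 := by positivity
      field_simp
      ring
    rw [h9] at h8
    linarith
  obtain ⟨r₁, hr₁⟩ := eventually_atTop.1 (ev.and (eventually_ge_atTop 1))
  refine ⟨r₁, fun r hr1 q hq hqr => ?_⟩
  obtain ⟨e1, e2⟩ := hr₁ r hr1
  have hr0 : (0 : ℝ) < r := by exact_mod_cast e2
  have hr1' : (1 : ℝ) ≤ r := by exact_mod_cast e2
  rw [← Nat.factorization_le_iff_dvd (by omega) (QQ_ne ε n r)]
  intro p
  rcases Nat.eq_zero_or_pos (q.factorization p) with h0 | h0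
  · rw [h0]
    exact Nat.zero_le _
  have hpq : p ∈ q.primeFactors := by
    rw [← Nat.support_factorization, Finsupp.mem_support_iff]
    omega
  have hp := Nat.prime_of_mem_primeFactors hpq
  have hple : p ≤ q := Nat.le_of_dvd hq (Nat.dvd_of_mem_primeFactors hpq)
  have hp0 : (0 : ℝ) < p := by exact_mod_cast hp.pos
  have hpr : (p : ℝ) ≤ (r : ℝ) ^ (1 - ε) := le_trans (by exact_mod_cast hple) hqr
  have hpy : p ≤ yy ε r := by
    unfold yy
    exact Nat.le_floor (hpr.trans (Real.rpow_le_rpow_of_exponent_le hr1' (by linarith)))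
  rw [QQ_fact, if_pos (Finset.mem_filter.2 ⟨Finset.mem_Icc.2 ⟨hp.one_lt.le, hpy⟩, hp⟩)]
  have hm0 : 0 < mm n p := Nat.lt_of_lt_of_le hn (Nat.le_add_right _ _)
  have hm1 : mm n p ≤ 2 * n := by
    unfold mm
    have := Nat.div_le_self (n - 1) (p - 1)
    omega
  have hc1 : cc n p ≤ n * (2 * n) ^ 2 := by
    unfold cc
    refine Nat.mul_le_mul (Nat.log_le_self p n) ((Nat.sub_le _ _).trans ?_)
    exact Nat.pow_le_pow_left hm1 2
  have ha : (q.factorization p : ℝ) ≤ 2 * Real.log r := by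
    have h1 : 2 ^ q.factorization p ≤ q :=
      (Nat.pow_le_pow_left hp.two_le _).trans (Nat.ordProj_le p (by omega))
    have h2 : (2 : ℝ) ^ q.factorization p ≤ r := by
      have h3 : (r : ℝ) ^ (1 - ε) ≤ (r : ℝ) ^ (1 : ℝ) :=
        Real.rpow_le_rpow_of_exponent_le hr1' (by linarith)
      rw [Real.rpow_one] at h3
      have h4 : ((2 : ℝ) ^ q.factorization p) ≤ q := by exact_mod_cast h1
      linarith
    have h3 := Real.log_le_log (by positivity) h2
    rw [Real.log_pow] at h3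
    have h4 := Real.log_two_gt_d9
    have h5 : (0 : ℝ) ≤ q.factorization p := by positivity
    nlinarith
  have hS : 1 / 2 * (r : ℝ) ^ ε - 1 ≤ SS ε r p := by
    have h1 : (1 - ε / 2) * r / p < (SS ε r p : ℝ) + 1 := Nat.lt_floor_add_one _
    have h2 : 1 / 2 * (r : ℝ) ^ ε ≤ (1 - ε / 2) * r / p := by
      rw [le_div_iff₀ hp0]
      have h3 : (r : ℝ) ^ ε * p ≤ r := by
        calc (r : ℝ) ^ ε * p ≤ (r : ℝ) ^ ε * (r : ℝ) ^ (1 - ε) :=
              mul_le_mul_of_nonneg_left hpr (by positivity)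
          _ = r := by
              rw [← Real.rpow_add hr0]
              norm_num
      nlinarith
    linarith
  show q.factorization p ≤ (SS ε r p - cc n p) / mm n p
  rw [Nat.le_div_iff_mul_le hm0]
  have key : q.factorization p * mm n p + cc n p ≤ SS ε r p := by
    have h1 : ((q.factorization p * mm n p + cc n p : ℕ) : ℝ) ≤ (SS ε r p : ℝ) := by
      push_cast
      have h2 : (mm n p : ℝ) ≤ 2 * n := by exact_mod_cast hm1
      have h3 : (cc n p : ℝ) ≤ n * (2 * n) ^ 2 := by exact_mod_cast hc1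
      have h4 : (q.factorization p : ℝ) * mm n p ≤ 2 * Real.log r * (2 * n) := by
        refine mul_le_mul ha h2 (by positivity) ?_
        have := Real.log_nonneg hr1'
        positivity
      nlinarith
    exact_mod_cast h1
  omega

theorem size (ε : ℝ) (hε : 0 < ε) (hε1 : ε < 1) : ∃ r₀ : ℕ, ∀ r : ℕ, r₀ ≤ r → ∀ n : ℕ, 1 ≤ n →
    (n : ℝ) ^ 2 ≤ (r : ℝ) ^ (1 - ε) →
    ((r : ℝ) ^ (1 - ε) / (n : ℝ) ^ 2) ^ ((1 - ε) * r / n) ≤ QQ ε n r := by
  classical
  obtain ⟨C, hC⟩ := Pool.Agent.Helper923.HMertens.mertens_log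
  have hr : Tendsto (fun r : ℕ => (r : ℝ)) atTop atTop := tendsto_natCast_atTop_atTop
  obtain ⟨r₀, hr₀⟩ := eventually_atTop.1 (((Real.tendsto_log_atTop.comp hr).eventually_ge_atTop
    ((Real.log 2 + 2 * C + 8) * (2 / ε))).and (eventually_ge_atTop 1))
  refine ⟨r₀, fun r hr1 n hn hnr => ?_⟩
  obtain ⟨e1, e2⟩ := hr₀ r hr1
  have hr0 : (0 : ℝ) < r := by exact_mod_cast e2
  have hr1' : (1 : ℝ) ≤ r := by exact_mod_cast e2
  have hn0 : (0 : ℝ) < n := by exact_mod_cast hn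
  simp only [Function.comp] at e1
  obtain ⟨Λ, hΛ⟩ : ∃ Λ, Λ = Real.log r := ⟨_, rfl⟩
  obtain ⟨ν, hν⟩ : ∃ ν, ν = Real.log n := ⟨_, rfl⟩
  rw [← hΛ] at e1
  have e1' : Real.log 2 + 2 * C + 8 ≤ ε / 2 * Λ := by
    have h1 : (Real.log 2 + 2 * C + 8) = (Real.log 2 + 2 * C + 8) * (2 / ε) * (ε / 2) := by
      field_simp
    rw [h1]
    have h2 := mul_le_mul_of_nonneg_right e1 (by positivity : (0 : ℝ) ≤ ε / 2)
    linarith
  -- the range of the primes
  obtain ⟨Y, hY⟩ : ∃ Y, Y = (r : ℝ) ^ (1 - ε / 2) / n := ⟨_, rfl⟩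
  have hY0 : 0 < Y := by rw [hY]; positivity
  have hnY : (n : ℝ) ≤ Y := by
    rw [hY, le_div_iff₀ hn0]
    calc (n : ℝ) * n = (n : ℝ) ^ 2 := by ring
      _ ≤ (r : ℝ) ^ (1 - ε) := hnr
      _ ≤ (r : ℝ) ^ (1 - ε / 2) := Real.rpow_le_rpow_of_exponent_le hr1' (by linarith)
  obtain ⟨y, hy⟩ : ∃ y, y = ⌊Y⌋₊ := ⟨_, rfl⟩
  have hny : n ≤ y := by rw [hy]; exact Nat.le_floor hnY
  have hyY : (y : ℝ) ≤ Y := by rw [hy]; exact Nat.floor_le hY0.le
  have hy1 : 1 ≤ y := hn.trans hny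
  have hYy : Y / 2 ≤ y := by
    have h1 : Y < (y : ℝ) + 1 := by rw [hy]; exact Nat.lt_floor_add_one Y
    have h2 : (1 : ℝ) ≤ y := by exact_mod_cast hy1
    linarith
  have hyyy : y ≤ yy ε r := by
    unfold yy
    refine Nat.le_floor (hyY.trans ?_)
    rw [hY]
    exact div_le_self (by positivity) (by exact_mod_cast hn)
  have hlogY : Real.log Y = (1 - ε / 2) * Λ - ν := by
    rw [hY, Real.log_div (by positivity) (by positivity), Real.log_rpow hr0, ← hΛ, ← hν]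
  have hlogy : (1 - ε / 2) * Λ - ν - Real.log 2 ≤ Real.log y := by
    rw [← hlogY, ← Real.log_div hY0.ne' (by norm_num)]
    exact Real.log_le_log (by positivity) hYy
  -- the sum over the primes
  have hsub : (Icc 1 n).filter Nat.Prime ⊆ (Icc 1 y).filter Nat.Prime := by
    intro p hp
    obtain ⟨h1, h2⟩ := Finset.mem_filter.1 hp
    rw [Finset.mem_Icc] at h1
    exact Finset.mem_filter.2 ⟨Finset.mem_Icc.2 ⟨h1.1, h1.2.trans hny⟩, h2⟩
  obtain ⟨P, hP⟩ : ∃ P, P = (Icc 1 y).filter Nat.Prime \ (Icc 1 n).filter Nat.Prime := ⟨_, rfl⟩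
  have hPmem : ∀ p ∈ P, p.Prime ∧ n < p ∧ p ≤ y := by
    intro p hp
    rw [hP, Finset.mem_sdiff, Finset.mem_filter, Finset.mem_filter, Finset.mem_Icc,
      Finset.mem_Icc] at hp
    obtain ⟨⟨⟨h1, h2⟩, h3⟩, h4⟩ := hp
    refine ⟨h3, ?_, h2⟩
    by_contra h5
    exact h4 ⟨⟨h1, not_lt.1 h5⟩, h3⟩
  have hsum1 : Real.log y - ν - 2 * C ≤ ∑ p ∈ P, Real.log p / p := by
    have h1 := (abs_le.1 (hC y hy1)).1
    have h2 := (abs_le.1 (hC n hn)).2
    have h3 : ∑ p ∈ P, Real.log p / p = ∑ p ∈ (Icc 1 y).filter Nat.Prime, Real.log p / p -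
        ∑ p ∈ (Icc 1 n).filter Nat.Prime, Real.log p / p := by
      rw [hP, ← Finset.sum_sdiff hsub]
      ring
    rw [h3, hν]
    linarith
  have hsum2 : ∑ p ∈ P, Real.log p ≤ 2 * y := by
    refine le_trans (Finset.sum_le_sum_of_subset_of_nonneg ?_ ?_)
      (Pool.Agent.Helper923.HMertens.theta_le y)
    · rw [hP]
      exact Finset.sdiff_subset
    · intro p hp _
      have : 1 ≤ p := (Finset.mem_filter.1 hp).2.one_lt.le
      exact Real.log_nonneg (by exact_mod_cast this)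
  have hex : ∀ p ∈ P, (1 - ε / 2) * (r / n) * (Real.log p / p) - 2 * Real.log p ≤
      ex ε n r p * Real.log p := by
    intro p hp
    obtain ⟨h1, h2, -⟩ := hPmem p hp
    have hp0 : (0 : ℝ) < p := by exact_mod_cast h1.pos
    have h3 : ex ε n r p = SS ε r p / n := by
      have h10 : (n - 1) / (p - 1) = 0 := Nat.div_eq_of_lt (by omega)
      unfold ex cc mm
      rw [h10, Nat.log_of_lt h2, Nat.zero_mul, Nat.sub_zero, Nat.add_zero]
    have h4 : (SS ε r p : ℝ) ≤ n * (((SS ε r p / n : ℕ) : ℝ) + 1) := by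
      have := (Nat.lt_mul_div_succ (SS ε r p) hn).le
      exact_mod_cast this
    have h5 : (1 - ε / 2) * r / p < (SS ε r p : ℝ) + 1 := Nat.lt_floor_add_one _
    have h6 : (1 - ε / 2) * (r / n) / p - 2 ≤ (ex ε n r p : ℝ) := by
      rw [h3]
      have h7 : (1 - ε / 2) * (r / n) / p = ((1 - ε / 2) * r / p) / n := by
        field_simp
      rw [h7]
      have h8 : ((1 - ε / 2) * r / p) / n ≤ ((SS ε r p / n : ℕ) : ℝ) + 1 + 1 / n := by
        rw [div_le_iff₀ hn0]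
        have h9 : (((SS ε r p / n : ℕ) : ℝ) + 1 + 1 / n) * n =
            n * (((SS ε r p / n : ℕ) : ℝ) + 1) + 1 := by
          field_simp
        rw [h9]
        linarith
      have h9 : (1 : ℝ) / n ≤ 1 := by
        rw [div_le_one hn0]
        exact_mod_cast hn
      linarith
    have h7 : 0 ≤ Real.log p := Real.log_nonneg (by exact_mod_cast h1.one_lt.le)
    have h8 := mul_le_mul_of_nonneg_right h6 h7
    have h9 : ((1 - ε / 2) * (r / n) / p - 2) * Real.log p =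
        (1 - ε / 2) * (r / n) * (Real.log p / p) - 2 * Real.log p := by ring
    rwa [h9] at h8
  have hlogQ : Real.log (QQ ε n r) = ∑ p ∈ (Icc 1 (yy ε r)).filter Nat.Prime,
      (ex ε n r p : ℝ) * Real.log p := by
    unfold QQ
    rw [Nat.cast_prod, Real.log_prod]
    · refine Finset.sum_congr rfl fun p _ => ?_
      rw [Nat.cast_pow, Real.log_pow]
    · intro p hp
      have := (Finset.mem_filter.1 hp).2.ne_zero
      exact_mod_cast pow_ne_zero _ this
  have hPsub : P ⊆ (Icc 1 (yy ε r)).filter Nat.Prime := by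
    intro p hp
    obtain ⟨h1, h2, h3⟩ := hPmem p hp
    exact Finset.mem_filter.2 ⟨Finset.mem_Icc.2 ⟨h1.one_lt.le, h3.trans hyyy⟩, h1⟩
  have hmain : (1 - ε / 2) * (r / n) * (Real.log y - ν - 2 * C) - 4 * y ≤
      Real.log (QQ ε n r) := by
    rw [hlogQ]
    refine le_trans ?_ (Finset.sum_le_sum_of_subset_of_nonneg hPsub ?_)
    · refine le_trans ?_ (Finset.sum_le_sum hex)
      rw [Finset.sum_sub_distrib, ← Finset.mul_sum, ← Finset.mul_sum]
      have h1 : 0 ≤ (1 - ε / 2) * ((r : ℝ) / n) := by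
        have : 0 ≤ 1 - ε / 2 := by linarith
        positivity
      have h2 := mul_le_mul_of_nonneg_left hsum1 h1
      linarith
    · intro p hp _
      have : 1 ≤ p := (Finset.mem_filter.1 hp).2.one_lt.le
      exact mul_nonneg (Nat.cast_nonneg _) (Real.log_nonneg (by exact_mod_cast this))
  -- the final comparison
  have hyr : (y : ℝ) ≤ r / n := by
    refine hyY.trans ?_
    rw [hY]
    refine div_le_div_of_nonneg_right ?_ hn0.le
    calc (r : ℝ) ^ (1 - ε / 2) ≤ (r : ℝ) ^ (1 : ℝ) :=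
          Real.rpow_le_rpow_of_exponent_le hr1' (by linarith)
      _ = r := Real.rpow_one _
  have hX : 0 ≤ (1 - ε) * Λ - 2 * ν := by
    have h1 := Real.log_le_log (by positivity) hnr
    rw [Real.log_rpow hr0, Real.log_pow, ← hΛ, ← hν] at h1
    push_cast at h1
    linarith
  have hfin : ((1 - ε) * Λ - 2 * ν) * ((1 - ε) * r / n) ≤ Real.log (QQ ε n r) := by
    refine le_trans ?_ hmain
    have h1 : (r : ℝ) / n * ((1 - ε / 2) * (((1 - ε / 2) * Λ - ν - Real.log 2) - ν - 2 * C) - 4) ≤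
        (1 - ε / 2) * (r / n) * (Real.log y - ν - 2 * C) - 4 * y := by
      have h2 : 0 ≤ (1 - ε / 2) * ((r : ℝ) / n) := by
        have : 0 ≤ 1 - ε / 2 := by linarith
        positivity
      have h3 := mul_le_mul_of_nonneg_left hlogy h2
      nlinarith
    refine le_trans ?_ h1
    have h4 : ((1 - ε) * Λ - 2 * ν) * ((1 - ε) * r / n) =
        (r : ℝ) / n * ((1 - ε) * ((1 - ε) * Λ - 2 * ν)) := by ring
    rw [h4]
    refine mul_le_mul_of_nonneg_left ?_ (by positivity)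
    nlinarith
  have hpos : 0 < (r : ℝ) ^ (1 - ε) / (n : ℝ) ^ 2 := by positivity
  have hQpos : (0 : ℝ) < QQ ε n r := by
    have := Nat.pos_of_ne_zero (QQ_ne ε n r)
    exact_mod_cast this
  rw [Real.rpow_def_of_pos hpos, ← Real.exp_log hQpos]
  refine Real.exp_le_exp.2 ?_
  rw [Real.log_div (by positivity) (by positivity), Real.log_rpow hr0, Real.log_pow, ← hΛ, ← hν]
  push_cast
  exact hfin

/-- fixed dimension: the size, also compared with the product of the degrees -/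
theorem fixed (ε : ℝ) (hε : 0 < ε) (hε1 : ε < 1) (n : ℕ) (hn : 1 ≤ n) : ∃ r₁ : ℕ, ∀ r : ℕ, r₁ ≤ r →
    (r : ℝ) ^ ((1 - 3 * ε) * r / n) ≤ QQ ε n r ∧
    ∀ c : ℝ, 1 ≤ c → ∀ d : Fin r → ℕ, (∀ i, 1 ≤ d i ∧ (d i : ℝ) ≤ (r : ℝ) ^ c) →
      ((∏ i, d i : ℕ) : ℝ) ^ ((1 - 3 * ε) / (c * n)) ≤ QQ ε n r := by
  obtain ⟨r₀, hr₀⟩ := size ε hε hε1
  have hr : Tendsto (fun r : ℕ => (r : ℝ)) atTop atTop := tendsto_natCast_atTop_atTop
  have hn0 : (0 : ℝ) < n := by exact_mod_cast hn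
  have hn1 : (1 : ℝ) ≤ n := by exact_mod_cast hn
  have hν : 0 ≤ Real.log n := Real.log_nonneg hn1
  have h1 : Tendsto (fun r : ℕ => (r : ℝ) ^ (1 - ε)) atTop atTop :=
    (tendsto_rpow_atTop (by linarith)).comp hr
  obtain ⟨r₁, hr₁⟩ := eventually_atTop.1 ((h1.eventually_ge_atTop ((n : ℝ) ^ 2)).and
    (((Real.tendsto_log_atTop.comp hr).eventually_ge_atTop (2 * Real.log n / ε)).and
    (eventually_ge_atTop (max 1 r₀))))
  refine ⟨r₁, fun r hr1 => ?_⟩
  obtain ⟨e1, e2, e3⟩ := hr₁ r hr1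
  have hr1' : (1 : ℝ) ≤ r := by exact_mod_cast (le_max_left _ _).trans e3
  have hr0 : (0 : ℝ) < r := by linarith
  simp only [Function.comp] at e2
  rw [div_le_iff₀ hε] at e2
  have h2 := hr₀ r ((le_max_right _ _).trans e3) n hn e1
  have hΛ : 0 ≤ Real.log r := Real.log_nonneg hr1'
  have h3 : (r : ℝ) ^ ((1 - 3 * ε) * r / n) ≤ QQ ε n r := by
    refine le_trans ?_ h2
    have hpos : 0 < (r : ℝ) ^ (1 - ε) / (n : ℝ) ^ 2 := by positivity
    rw [Real.rpow_def_of_pos hpos, Real.rpow_def_of_pos hr0]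
    refine Real.exp_le_exp.2 ?_
    rw [Real.log_div (by positivity) (by positivity), Real.log_rpow hr0, Real.log_pow]
    push_cast
    have h4 : Real.log r * ((1 - 3 * ε) * r / n) = (r : ℝ) / n * ((1 - 3 * ε) * Real.log r) := by
      ring
    have h5 : ((1 - ε) * Real.log r - 2 * Real.log n) * ((1 - ε) * r / n) =
        (r : ℝ) / n * ((1 - ε) * ((1 - ε) * Real.log r - 2 * Real.log n)) := by ring
    rw [h4, h5]
    refine mul_le_mul_of_nonneg_left ?_ (by positivity)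
    nlinarith [mul_nonneg (mul_nonneg hε.le hε.le) hΛ, mul_nonneg hε.le hν]
  refine ⟨h3, fun c hc d hd => ?_⟩
  have hD1 : (1 : ℝ) ≤ ((∏ i, d i : ℕ) : ℝ) := by
    have : 1 ≤ ∏ i, d i := Nat.one_le_iff_ne_zero.2 (Finset.prod_ne_zero_iff.2 fun i _ => by
      have := (hd i).1
      omega)
    exact_mod_cast this
  have hQ1 : (1 : ℝ) ≤ QQ ε n r := by
    have := Nat.one_le_iff_ne_zero.2 (QQ_ne ε n r)
    exact_mod_cast this
  rcases le_or_gt (1 - 3 * ε) 0 with h4 | h4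
  · refine le_trans (Real.rpow_le_one_of_one_le_of_nonpos hD1 ?_) hQ1
    exact div_nonpos_of_nonpos_of_nonneg h4 (by positivity)
  · refine le_trans ?_ h3
    have h5 : ((∏ i, d i : ℕ) : ℝ) ≤ ((r : ℝ) ^ c) ^ r := by
      rw [Nat.cast_prod]
      have h6 : ((r : ℝ) ^ c) ^ r = ∏ _i : Fin r, (r : ℝ) ^ c := by
        rw [Finset.prod_const, Finset.card_univ, Fintype.card_fin]
      rw [h6]
      exact Finset.prod_le_prod (fun i _ => Nat.cast_nonneg _) fun i _ => (hd i).2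
    have hcn : 0 < c * n := by positivity
    refine (Real.rpow_le_rpow (by linarith) h5 (div_nonneg h4.le hcn.le)).trans (le_of_eq ?_)
    rw [← Real.rpow_natCast, ← Real.rpow_mul hr0.le, ← Real.rpow_mul hr0.le]
    congr 1
    have : c ≠ 0 := by positivity
    field_simp

end Pool.Agent.N773.AD
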